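import Pool.Agent.Lib.SmJ.L.Vec

/-!
# SMITH block G, module CodeOk: what the tower needs to know about the codes of a vector of primes
-/

set_option autoImplicit false

open Polynomial

namespace Pool.Agent.SmJ

variable {k : Type} [Field k] {G V V1 Pl : Type} [Group G] [AddCommGroup V] [DistribMulAction G V]
  [AddCommGroup V1] [Module (ZMod 2) V1]

/-- The codes over `p` describe the 2-Selmer group of the twist by `∏ j, p j` faithfully. -/
structure CodeOk (S : Sys G V V1 Pl) (ch : k[X] → G → ZMod 2) (d : TwData k V1) {J : Type} [Fintype J]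
    (p : J → k[X]) : Prop where
  chi : S.HomG (chiJ ch p)
  hom : ∀ c : CodeJ d J, S.HomG (homJ ch d p c)
  inj : Function.Injective (homJ ch d p)
  ram : ∃ v ∈ S.good, chiJ ch p (S.sg v) = 1
  surj : ∀ b, S.IsSel1 (chiJ ch p) b → ∃ c : CodeJ d J, homJ ch d p c = b
  kap : ∀ (w : V1) (z : V), (2 : ℕ) • z = S.iota w →
    ∀ s, S.iota (homJ ch d p (kapJ d J w) s) = dl (chiJ ch p) z s

variable {ch : k[X] → G → ZMod 2} {d : TwData k V1} {J : Type} [Fintype J] {p : J → k[X]}

theorem homJ_add (c c' : CodeJ d J) : homJ ch d p (c + c') = homJ ch d p c + homJ ch d p c' := by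
  funext s
  simp only [homJ, Prod.fst_add, Prod.snd_add, Pi.add_apply, smul_add, Finset.sum_add_distrib]
  abel

theorem homJ_zero : homJ ch d p (0 : CodeJ d J) = 0 := by
  have := homJ_add (ch := ch) (p := p) (0 : CodeJ d J) 0
  rw [add_zero] at this
  exact left_eq_add.mp this

/-- The code homomorphism as an additive map. -/
noncomputable def homJA (ch : k[X] → G → ZMod 2) (d : TwData k V1) (p : J → k[X]) :
    CodeJ d J →+ (G → V1) where
  toFun := homJ ch d p
  map_zero' := homJ_zero
  map_add' := homJ_add

end Pool.Agent.SmJ
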